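import Mathlib
import Pool.Agent.H29.DC8

set_option autoImplicit false

namespace Pool.Agent.Results.MP_ac065a_co.Simple

open Finset Pool.Agent.H29.DC

/-- largest weight of a directed cut; `w u v` is the weight of the arc `u → v`, `0` if none -/
noncomputable def mac {V : Type} [Fintype V] [DecidableEq V] (w : V → V → ℝ) : ℝ :=
  ⨆ X : Finset V, ∑ u ∈ X, ∑ v ∈ Xᶜ, w u v

/-- the best guarantee for acyclic digraphs of total weight `T` whose values lie in `S` -/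
noncomputable def h (S : Set ℝ) (T : ℝ) : ℝ :=
  sSup {g : ℝ | ∀ (V : Type) [Fintype V] [DecidableEq V] (w : V → V → ℝ), (∀ u v, w u v ∈ S) →
    (∀ v, ¬ Relation.TransGen (fun a b => w a b ≠ 0) v v) → ∑ u, ∑ v, w u v = T → g ≤ mac w}

theorem aux {S : Set ℝ} {T e : ℝ} (hS : ∀ r ∈ S, r = 0 ∨ 1 ≤ r) (hP : P S T e) :
    T / 4 + 1 / 128 * T ^ (3 / 5 : ℝ) ≤ h S T ∧ h S T ≤ T / 4 + e := by
  have mem : ∀ (V : Type) [Fintype V] [DecidableEq V] (w : V → V → ℝ), (∀ u v, w u v ∈ S) →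
      (∀ v, ¬ Relation.TransGen (fun a b => w a b ≠ 0) v v) → ∑ u, ∑ v, w u v = T →
      T / 4 + 1 / 128 * T ^ (3 / 5 : ℝ) ≤ mac w := fun V _ _ w hw ac e => by
    obtain ⟨X, hX⟩ := lower w (fun u v => hS _ (hw u v)) ac
    exact e ▸ hX.trans (le_ciSup (f := fun X : Finset V => ∑ u ∈ X, ∑ v ∈ Xᶜ, w u v)
      (Set.finite_range _).bddAbove X)
  suffices ub : T / 4 + e ∈ upperBounds _ from ⟨le_csSup ⟨_, ub⟩ mem, csSup_le ⟨_, mem⟩ ub⟩
  obtain ⟨V, _, _, w, f, a, b, c, d⟩ := hP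
  exact fun g hg => (hg V w a (P.acyc w f b) c).trans
    (ciSup_le fun X => (cut_bool w X).trans_le (d _))

theorem result : ∃ C : ℝ, ∀ m : ℕ, h {0, 1} m ≤ m / 4 + C * (m : ℝ) ^ (5 / 7 : ℝ) := by
  obtain ⟨C, -, hC⟩ := all_simple
  exact ⟨C, fun m => (aux (by rintro _ (rfl | rfl) <;> simp) (hC m)).2⟩

end Pool.Agent.Results.MP_ac065a_co.Simple
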